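import Pool.Agent.Lib.MP_d55432_al.SIX.H65.Reg3

/-!
# SIX: ORB, traceless matrices with scalar square up to conjugation
-/

namespace Pool.Agent.Lib.MP_d55432_al.SIX.H65

open Matrix LieAlgebra

attribute [local instance 100] LieRing.ofAssociativeRing

section

variable {K : Type*} [Field K]

theorem li4 {a b c d : Fin 4 → K} (h : LinearIndependent K ![a, b, c, d]) {x0 x1 x2 x3 : K}
    (h0 : x0 • a + x1 • b + x2 • c + x3 • d = 0) : x0 = 0 ∧ x1 = 0 ∧ x2 = 0 ∧ x3 = 0 := by
  rw [Fintype.linearIndependent_iff] at h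
  have h1 := h ![x0, x1, x2, x3] (by
    rw [Fin.sum_univ_four]
    exact h0)
  exact ⟨h1 0, h1 1, h1 2, h1 3⟩

theorem li4_of {a b c d : Fin 4 → K} (h : ∀ x0 x1 x2 x3 : K,
    x0 • a + x1 • b + x2 • c + x3 • d = 0 → x0 = 0 ∧ x1 = 0 ∧ x2 = 0 ∧ x3 = 0) :
    LinearIndependent K ![a, b, c, d] := by
  rw [Fintype.linearIndependent_iff]
  intro g hg
  rw [Fin.sum_univ_four] at hg
  obtain ⟨h0, h1, h2, h3⟩ := h (g 0) (g 1) (g 2) (g 3) hg
  intro i
  fin_cases i
  · exact h0
  · exact h1
  · exact h2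
  · exact h3

/-- If `a, b, c` are independent and `a, b, c, d` are not then `d` is a combination. -/
theorem dep4 {a b c d : Fin 4 → K} (h : ¬ LinearIndependent K ![a, b, c, d])
    (h3 : LinearIndependent K ![a, b, c]) : ∃ x y z : K, d = x • a + y • b + z • c := by
  have h1 : d ∈ Submodule.span K (Set.range ![a, b, c]) := by
    by_contra hd
    apply h
    have h2 := linearIndependent_finSnoc.2 ⟨h3, hd⟩
    have h4 : (Fin.snoc ![a, b, c] d : Fin 4 → Fin 4 → K) = ![a, b, c, d] := by
      funext i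
      fin_cases i <;> rfl
    rw [h4] at h2
    exact h2
  rw [Submodule.mem_span_range_iff_exists_fun] at h1
  obtain ⟨f, hf⟩ := h1
  refine ⟨f 0, f 1, f 2, ?_⟩
  rw [← hf, Fin.sum_univ_three]
  rfl

theorem li3_of {a b c d : Fin 4 → K} (h : LinearIndependent K ![a, b, c, d]) (s t : K)
    (hst : s ≠ 0 ∨ t ≠ 0) : LinearIndependent K ![a, b, s • c + t • d] := by
  rw [Fintype.linearIndependent_iff]
  intro g hg
  rw [Fin.sum_univ_three] at hg
  have hg' : g 0 • a + g 1 • b + (g 2 * s) • c + (g 2 * t) • d = 0 := by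
    rw [← hg]
    change _ = g 0 • a + g 1 • b + g 2 • (s • c + t • d)
    rw [smul_add, smul_smul, smul_smul]
    abel
  obtain ⟨h0, h1, h2, h3⟩ := li4 h hg'
  have h4 : g 2 = 0 := by
    rcases hst with hs | ht
    · exact (mul_eq_zero.1 h2).resolve_right hs
    · exact (mul_eq_zero.1 h3).resolve_right ht
  intro i
  fin_cases i
  · exact h0
  · exact h1
  · exact h4

end

theorem orb (K : Type*) [Field K] [IsAlgClosed K] [CharZero K] : ORB_S K := by
  intro X c hX hXX
  by_cases hX0 : X = 0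
  · exact Or.inl hX0
  right
  -- a vector which is not an eigenvector
  obtain ⟨v, hv⟩ : ∃ v : Fin 4 → K, LinearIndependent K ![v, X *ᵥ v] := by
    by_contra hcon
    push Not at hcon
    obtain ⟨a, ha⟩ := LinearMap.exists_eq_smul_id_of_forall_notLinearIndependent
      (f := Matrix.toLin' X) hcon
    have h1 : X = a • (1 : M4 K) := by
      have h2 := congrArg LinearMap.toMatrix' ha
      rw [LinearMap.toMatrix'_toLin', map_smul] at h2
      rw [h2, Module.End.one_eq_id, LinearMap.toMatrix'_id]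
    rw [h1, trace_smul, trace_one, Fintype.card_fin, smul_eq_mul] at hX
    have h3 : a = 0 := by
      rcases mul_eq_zero.1 hX with h | h
      · exact h
      · exfalso
        norm_num at h
    apply hX0
    rw [h1, h3, zero_smul]
  have hXX' : ∀ w : Fin 4 → K, X *ᵥ (X *ᵥ w) = c • w := by
    intro w
    rw [Matrix.mulVec_mulVec, hXX, Matrix.smul_mulVec, Matrix.one_mulVec]
  by_cases hA : ∃ w : Fin 4 → K, LinearIndependent K ![v, X *ᵥ v, w, X *ᵥ w]
  · obtain ⟨w, hw⟩ := hA
    obtain ⟨g, h, hgh, hhg, hXg⟩ := eq_conj X (CC c) _ hw (by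
      intro j
      fin_cases j
      · simp [CC]
      · simp [CC, hXX']
      · simp [CC]
      · simp [CC, hXX'])
    exact ⟨g, h, hgh, hhg, Or.inl hXg⟩
  · push Not at hA
    -- extend to a basis
    have hfin : Module.finrank K (Fin 4 → K) = 4 := by simp
    obtain ⟨w1, hw1⟩ := exists_linearIndependent_snoc_of_lt_finrank hv (by rw [hfin]; norm_num)
    obtain ⟨w2, hw2⟩ := exists_linearIndependent_snoc_of_lt_finrank hw1 (by rw [hfin]; norm_num)
    have e1 : (Fin.snoc (Fin.snoc ![v, X *ᵥ v] w1 : Fin 3 → Fin 4 → K) w2 : Fin 4 → Fin 4 → K) =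
        ![v, X *ᵥ v, w1, w2] := by
      funext i
      fin_cases i <;> rfl
    rw [e1] at hw2
    obtain ⟨a1, b1, m1, h1⟩ := dep4 (hA w1) (by
      have := li3_of hw2 1 0 (Or.inl one_ne_zero)
      rwa [one_smul, zero_smul, add_zero] at this)
    obtain ⟨a2, b2, m2, h2⟩ := dep4 (hA w2) (by
      have := li3_of hw2 0 1 (Or.inr one_ne_zero)
      rwa [one_smul, zero_smul, zero_add] at this)
    obtain ⟨a3, b3, m3, h3⟩ := dep4 (hA (w1 + w2)) (by
      have := li3_of hw2 1 1 (Or.inl one_ne_zero)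
      rwa [one_smul, one_smul] at this)
    -- equal eigenvalues
    have h4 : (a1 + a2 - a3) • v + (b1 + b2 - b3) • (X *ᵥ v) + (m1 - m3) • w1 +
        (m2 - m3) • w2 = 0 := by
      have h5 : X *ᵥ (w1 + w2) = X *ᵥ w1 + X *ᵥ w2 := Matrix.mulVec_add _ _ _
      rw [h3, h1, h2] at h5
      have h6 := sub_eq_zero.2 h5.symm
      rw [← h6]
      module
    obtain ⟨-, -, h5, h6⟩ := li4 hw2 h4
    have h7 : m2 = m1 := by linear_combination h6 - h5
    subst h7
    -- the square
    have h8 : (b1 * c + m2 * a1) • v + (a1 + m2 * b1) • (X *ᵥ v) + (m2 ^ 2 - c) • w1 +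
        (0 : K) • w2 = 0 := by
      have h9 := hXX' w1
      rw [h1] at h9
      rw [Matrix.mulVec_add, Matrix.mulVec_add, Matrix.mulVec_smul, Matrix.mulVec_smul,
        Matrix.mulVec_smul, hXX' v, h1] at h9
      have h10 := sub_eq_zero.2 h9
      rw [← h10]
      module
    obtain ⟨h9, h10, h11, -⟩ := li4 hw2 h8
    have h12 : (b2 * c + m2 * a2) • v + (a2 + m2 * b2) • (X *ᵥ v) + (0 : K) • w1 +
        (m2 ^ 2 - c) • w2 = 0 := by
      have h9 := hXX' w2
      rw [h2] at h9
      rw [Matrix.mulVec_add, Matrix.mulVec_add, Matrix.mulVec_smul, Matrix.mulVec_smul,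
        Matrix.mulVec_smul, hXX' v, h2] at h9
      have h10 := sub_eq_zero.2 h9
      rw [← h10]
      module
    obtain ⟨h13, h14, -, -⟩ := li4 hw2 h12
    -- the trace
    obtain ⟨g, h, hgh, hhg, hXg⟩ := eq_conj X
      !![0, c, a1, a2; 1, 0, b1, b2; 0, 0, m2, 0; 0, 0, 0, m2] _ hw2 (by
      intro j
      fin_cases j
      · simp
      · simp [hXX']
      · simp [h1]
      · simp [h2])
    have h15 : m2 = 0 := by
      have h16 := hX
      rw [hXg, trace_mul_comm, ← Matrix.mul_assoc, hhg, Matrix.one_mul, Matrix.trace,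
        Fin.sum_univ_four] at h16
      have h17 : (2 : K) * m2 = 0 := by
        have h18 : (0 : K) + 0 + m2 + m2 = 0 := h16
        linear_combination h18
      rcases mul_eq_zero.1 h17 with h | h
      · exact absurd h two_ne_zero
      · exact h
    subst h15
    have hc : c = 0 := by linear_combination -h11
    have ha1 : a1 = 0 := by linear_combination h10
    have ha2 : a2 = 0 := by linear_combination h14
    subst hc
    subst ha1
    subst ha2
    have h16 : LinearIndependent K ![X *ᵥ v, v, w1 - b1 • v, w2 - b2 • v] := by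
      apply li4_of
      intro x0 x1 x2 x3 h0
      have h17 : (x1 - x2 * b1 - x3 * b2) • v + x0 • (X *ᵥ v) + x2 • w1 + x3 • w2 = 0 := by
        rw [← h0]
        module
      obtain ⟨k0, k1, k2, k3⟩ := li4 hw2 h17
      refine ⟨k1, ?_, k2, k3⟩
      rw [k2, k3] at k0
      linear_combination k0
    obtain ⟨g', h', hgh', hhg', hXg'⟩ := eq_conj X (Matrix.single 0 1 1) _ h16 (by
      have hXv : X *ᵥ (X *ᵥ v) = 0 := by rw [hXX', zero_smul]
      intro j
      fin_cases j
      · simp [hXv]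
      · simp
      · simp [Matrix.mulVec_sub, Matrix.mulVec_smul, h1]
      · simp [Matrix.mulVec_sub, Matrix.mulVec_smul, h2])
    exact ⟨g', h', hgh', hhg', Or.inr ⟨rfl, hXg'⟩⟩

end Pool.Agent.Lib.MP_d55432_al.SIX.H65
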