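import Pool.Agent.Lib.MP_d55432_al.SIX.Iface

/-!
# SIX: REG3, diagonalisation of regular traceless matrices
-/

namespace Pool.Agent.Lib.MP_d55432_al.SIX.H65

open Matrix LieAlgebra Polynomial

attribute [local instance 100] LieRing.ofAssociativeRing

section cols

variable {K : Type*} [Field K]

/-- The matrix with columns `v 0, v 1, v 2, v 3`. -/
def colM (v : Fin 4 → Fin 4 → K) : M4 K := (Matrix.of v)ᵀ

omit [Field K] in
theorem colM_apply (v : Fin 4 → Fin 4 → K) (i j : Fin 4) : colM v i j = v j i := rfl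

theorem colM_inv (v : Fin 4 → Fin 4 → K) (hv : LinearIndependent K v) :
    ∃ h : M4 K, colM v * h = 1 ∧ h * colM v = 1 := by
  have h1 : IsUnit (colM v) := by
    rw [← Matrix.linearIndependent_cols_iff_isUnit]
    exact hv
  obtain ⟨u, hu⟩ := h1
  refine ⟨(↑u⁻¹ : M4 K), ?_, ?_⟩
  · rw [← hu]; exact u.mul_inv
  · rw [← hu]; exact u.inv_mul

/-- `X g = g N` for the matrix `g` with columns `v` if the columns are mapped correctly. -/
theorem mul_colM (X N : M4 K) (v : Fin 4 → Fin 4 → K)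
    (h : ∀ j, X *ᵥ v j = N 0 j • v 0 + N 1 j • v 1 + N 2 j • v 2 + N 3 j • v 3) :
    X * colM v = colM v * N := by
  ext i j
  have h1 := congrFun (h j) i
  simp only [Matrix.mulVec, dotProduct, Fin.sum_univ_four, Pi.add_apply, Pi.smul_apply,
    smul_eq_mul] at h1
  rw [Matrix.mul_apply, Matrix.mul_apply, Fin.sum_univ_four, Fin.sum_univ_four]
  simp only [colM_apply]
  rw [h1]
  ring

theorem eq_conj (X N : M4 K) (v : Fin 4 → Fin 4 → K) (hv : LinearIndependent K v)
    (h : ∀ j, X *ᵥ v j = N 0 j • v 0 + N 1 j • v 1 + N 2 j • v 2 + N 3 j • v 3) :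
    ∃ g h : M4 K, g * h = 1 ∧ h * g = 1 ∧ X = g * N * h := by
  obtain ⟨k, h1, h2⟩ := colM_inv v hv
  refine ⟨colM v, k, h1, h2, ?_⟩
  rw [← mul_colM X N v h, Matrix.mul_assoc, h1, Matrix.mul_one]

end cols

theorem exists_quartic (K : Type*) [Field K] [IsAlgClosed K] (p q r : K) :
    ∃ a : K, a ^ 4 + p * a ^ 2 + q * a + r = 0 := by
  have hd : (X ^ 4 + C p * X ^ 2 + C q * X + C r : K[X]).degree = 4 := by compute_degree!
  obtain ⟨a, ha⟩ := IsAlgClosed.exists_root (X ^ 4 + C p * X ^ 2 + C q * X + C r : K[X])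
    (by rw [hd]; decide)
  refine ⟨a, ?_⟩
  simpa [IsRoot] using ha

theorem exists_cubic (K : Type*) [Field K] [IsAlgClosed K] (p q r : K) :
    ∃ a : K, a ^ 3 + p * a ^ 2 + q * a + r = 0 := by
  have hd : (X ^ 3 + C p * X ^ 2 + C q * X + C r : K[X]).degree = 3 := by compute_degree!
  obtain ⟨a, ha⟩ := IsAlgClosed.exists_root (X ^ 3 + C p * X ^ 2 + C q * X + C r : K[X])
    (by rw [hd]; decide)
  refine ⟨a, ?_⟩
  simpa [IsRoot] using ha

theorem exists_quadratic (K : Type*) [Field K] [IsAlgClosed K] (q r : K) :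
    ∃ a : K, a ^ 2 + q * a + r = 0 := by
  have hd : (X ^ 2 + C q * X + C r : K[X]).degree = 2 := by compute_degree!
  obtain ⟨a, ha⟩ := IsAlgClosed.exists_root (X ^ 2 + C q * X + C r : K[X])
    (by rw [hd]; decide)
  refine ⟨a, ?_⟩
  simpa [IsRoot] using ha

theorem reg3 (K : Type*) [Field K] [IsAlgClosed K] [CharZero K] (hB : CHB_S K) : REG3_S K := by
  intro X hX hdisc
  have hdet := hB X hX
  set p2 := (X * X).trace with hp2
  set p3 := (X * X * X).trace with hp3
  set p4 := (X * X * X * X).trace with hp4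
  obtain ⟨a, ha⟩ := exists_quartic K (-p2 / 2) (-p3 / 3) (p2 ^ 2 / 8 - p4 / 4)
  obtain ⟨b, hb⟩ := exists_cubic K a (a ^ 2 + (-p2 / 2)) (a ^ 3 + (-p2 / 2) * a + (-p3 / 3))
  obtain ⟨c, hc⟩ := exists_quadratic K (a + b) (a ^ 2 + a * b + b ^ 2 + (-p2 / 2))
  have e1 : -p2 / 2 = -(c ^ 2 + (a + b) * c + a ^ 2 + a * b + b ^ 2) := by
    linear_combination hc
  have e2 : -p3 / 3 = -(b ^ 3 + a * b ^ 2 + (a ^ 2 + (-p2 / 2)) * b + a ^ 3 + (-p2 / 2) * a) := by
    linear_combination hb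
  have e3 : p2 ^ 2 / 8 - p4 / 4 = -(a ^ 4 + (-p2 / 2) * a ^ 2 + (-p3 / 3) * a) := by
    linear_combination ha
  have e2' : -p3 / 3 = (a + b) * (b + c) * (c + a) := by
    rw [e2, e1]; ring
  have e3' : p2 ^ 2 / 8 - p4 / 4 = -(a * b * c * (a + b + c)) := by
    rw [e3, e2', e1]; ring
  have e4 : p3 ^ 2 / 9 = ((a + b) * (b + c) * (c + a)) ^ 2 := by
    rw [← e2']; ring
  rw [e1, e4, e3'] at hdisc
  have hprod : ((a - b) * (a - c) * (b - c) * (a + (a + b + c)) * (b + (a + b + c)) *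
      (c + (a + b + c))) ^ 2 ≠ 0 := by
    intro h0
    apply hdisc
    rw [← h0, disc4]
    ring
  have hprod1 := pow_ne_zero_iff (two_ne_zero) |>.1 hprod
  have h6 := (mul_ne_zero_iff.1 hprod1).2
  have h5 := (mul_ne_zero_iff.1 (mul_ne_zero_iff.1 hprod1).1).2
  have h4 := (mul_ne_zero_iff.1 (mul_ne_zero_iff.1 (mul_ne_zero_iff.1 hprod1).1).1).2
  have h3 := (mul_ne_zero_iff.1 (mul_ne_zero_iff.1 (mul_ne_zero_iff.1
    (mul_ne_zero_iff.1 hprod1).1).1).1).2
  have h2 := (mul_ne_zero_iff.1 (mul_ne_zero_iff.1 (mul_ne_zero_iff.1 (mul_ne_zero_iff.1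
    (mul_ne_zero_iff.1 hprod1).1).1).1).1).2
  have h1 := (mul_ne_zero_iff.1 (mul_ne_zero_iff.1 (mul_ne_zero_iff.1 (mul_ne_zero_iff.1
    (mul_ne_zero_iff.1 hprod1).1).1).1).1).1
  have hab : a ≠ b := fun h => h1 (sub_eq_zero.2 h)
  have hac : a ≠ c := fun h => h2 (sub_eq_zero.2 h)
  have hbc : b ≠ c := fun h => h3 (sub_eq_zero.2 h)
  have had : a ≠ -(a + b + c) := fun h => h4 (by linear_combination h)
  have hbd : b ≠ -(a + b + c) := fun h => h5 (by linear_combination h)
  have hcd : c ≠ -(a + b + c) := fun h => h6 (by linear_combination h)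
  -- the determinant
  have hroot : ∀ T : K, (T • (1 : M4 K) - X).det =
      (T - a) * (T - b) * (T - c) * (T + (a + b + c)) := by
    intro T
    rw [hdet T]
    have e5 : T ^ 4 - p2 / 2 * T ^ 2 - p3 / 3 * T + (p2 ^ 2 / 8 - p4 / 4) =
      T ^ 4 + (-p2 / 2) * T ^ 2 + (-p3 / 3) * T + (p2 ^ 2 / 8 - p4 / 4) := by ring
    rw [e5, e1, e2', e3']
    ring
  set m : Fin 4 → K := ![a, b, c, -(a + b + c)] with hm
  have hmroot : ∀ i, (m i • (1 : M4 K) - X).det = 0 := by
    intro i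
    rw [hroot]
    fin_cases i
    · simp [m]
    · simp [m]
    · simp [m]
    · change (-(a + b + c) - a) * (-(a + b + c) - b) * (-(a + b + c) - c) *
        (-(a + b + c) + (a + b + c)) = 0
      ring
  have hinj : Function.Injective m := by
    intro i j hij
    fin_cases i <;> fin_cases j <;> first
      | rfl
      | exact absurd hij hab
      | exact absurd hij.symm hab
      | exact absurd hij hac
      | exact absurd hij.symm hac
      | exact absurd hij hbc
      | exact absurd hij.symm hbc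
      | exact absurd hij had
      | exact absurd hij.symm had
      | exact absurd hij hbd
      | exact absurd hij.symm hbd
      | exact absurd hij hcd
      | exact absurd hij.symm hcd
  have hev : ∀ i, ∃ v : Fin 4 → K, v ≠ 0 ∧ X *ᵥ v = m i • v := by
    intro i
    obtain ⟨v, hv0, hv⟩ := Matrix.exists_mulVec_eq_zero_iff.2 (hmroot i)
    refine ⟨v, hv0, ?_⟩
    rw [Matrix.sub_mulVec, Matrix.smul_mulVec, Matrix.one_mulVec, sub_eq_zero] at hv
    exact hv.symm
  choose v hv0 hv using hev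
  have hli : LinearIndependent K v := by
    refine Module.End.eigenvectors_linearIndependent' (Matrix.toLin' X) m hinj v ?_
    intro i
    refine ⟨?_, hv0 i⟩
    rw [Module.End.mem_eigenspace_iff, Matrix.toLin'_apply]
    exact hv i
  obtain ⟨g, h, hgh, hhg, hXg⟩ := eq_conj X (Matrix.diagonal m) v hli (by
    intro j
    rw [hv j]
    fin_cases j
    · simp
    · simp
    · simp
    · simp)
  refine ⟨![a, b, c], g, h, hgh, hhg, ?_⟩
  rw [hXg]
  rfl

end Pool.Agent.Lib.MP_d55432_al.SIX.H65
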